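import Pool.Agent.TreeFPP.Defs
import Pool.Agent.TreeFPP.Coding
import Pool.Agent.Helper84.Fpp.Binary

open Pool.Agent.TreeFPP

namespace Pool.Agent.Results.MP_7bf935_al.BinarySpectrum

/-- The fixed-point proportions of the level-transitive groups of automorphisms of the binary
rooted tree are exactly the real numbers in `[0, 1/3]`. -/
theorem result : fppSpectrum 2 = Set.Icc (0 : ℝ) (1 / 3) := by
  ext a
  constructor
  · rintro ⟨G, hG, hGt, ha⟩
    refine ⟨?_, ?_⟩
    · refine ge_of_tendsto ha (Filter.Eventually.of_forall fun n => ?_)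
      unfold fixRatio
      positivity
    · have h := Pool.Agent.Helper84.Fpp.fpp_le (le_refl 2) hG hGt ha
      norm_num at h ⊢
      exact h
  · rintro ⟨h0, h1⟩
    obtain ⟨w, hw⟩ := coding (2 * a) (by linarith) (by linarith)
    have h := Pool.Agent.Helper84.Fpp.mem_spectrum_two hw
    rwa [mul_div_cancel_left₀ a (two_ne_zero)] at h

end Pool.Agent.Results.MP_7bf935_al.BinarySpectrum
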