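import Pool.Agent.TreeFPP.Defs
import Pool.Agent.Helper84.Fpp.Max

open Pool.Agent.TreeFPP

namespace Pool.Agent.Results.MP_7bf935_al.MaxProportion

/-- For every `d ≥ 2` the supremum of the fixed-point proportions of the level-transitive groups of
automorphisms of the `d`-regular rooted tree is attained. If `d` is a prime power it is equal to
`(d ^ 2 - d - 1) / (d ^ 2 - 1)`; otherwise it is at most `1 - (d - 1) / (d * (d - 2))`. -/
theorem result (d : ℕ) (hd : 2 ≤ d) : ∃ a : ℝ, IsGreatest (fppSpectrum d) a ∧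
    (IsPrimePow d → a = ((d : ℝ) ^ 2 - d - 1) / ((d : ℝ) ^ 2 - 1)) ∧
    (¬ IsPrimePow d → a ≤ 1 - ((d : ℝ) - 1) / (d * (d - 2))) :=
  Pool.Agent.Helper84.Fpp.max_proportion d hd

end Pool.Agent.Results.MP_7bf935_al.MaxProportion
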