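import Pool.Agent.TreeFPP.Defs
import Pool.Agent.TreeFPP.Aff2

open Pool.Agent.TreeFPP

namespace Pool.Agent.Results.MP_7bf935_al.SpectrumGap

/-- For every `d ≥ 3` no level-transitive group of automorphisms of the `d`-regular rooted tree has
its fixed-point proportion in a certain open interval with right end `(d - 2) / (d - 1)`, and this
right end is itself the fixed-point proportion of a level-transitive group if `d` is a prime
power. -/
theorem result (d : ℕ) (hd : 3 ≤ d) :
    (∀ a ∈ fppSpectrum d,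
      a ≤ ((d : ℝ) - 2) / (d - 1) -
        (if d = 3 then 1 / (9 : ℝ) ^ 9 else 1 / ((d : ℝ) * (d - 1) * (d - 2))) ∨
      ((d : ℝ) - 2) / (d - 1) ≤ a) ∧
    (IsPrimePow d → ((d : ℝ) - 2) / (d - 1) ∈ fppSpectrum d) := by
  refine ⟨?_, mem_spectrum d⟩
  rintro a ⟨G, hG, ht, ha⟩
  by_cases h : a ≤ ((d : ℝ) - 2) / (d - 1) - gapEps d
  · exact Or.inl h
  · exact Or.inr (gap hG ht hd ha (not_le.mp h))

end Pool.Agent.Results.MP_7bf935_al.SpectrumGap
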